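import Pool.Agent.CompSlopes.Rigid

namespace Pool.Agent.CompSlopes

/-- `n` is a gap of the numerical semigroup generated by `a` and `b` -/
def Gap (a b n : ℕ) : Prop := ¬ ∃ x y : ℕ, n = a * x + b * y

open Classical in
/-- The `V`-sequence of the torus knot `T(a,b)`: the number of gaps `≥ g + i`, `g = (a-1)(b-1)/2`. -/
noncomputable def vTorus (a b i : ℕ) : ℕ :=
  ((Finset.range (a * b)).filter fun n => (a - 1) * (b - 1) / 2 + i ≤ n ∧ Gap a b n).card

theorem genus_eq {a b : ℕ} (ha : 1 ≤ a) (hb : 1 ≤ b) (hc : Nat.Coprime a b) :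
    2 * ((a - 1) * (b - 1) / 2) + (a + b) = a * b + 1 := by
  obtain ⟨c, rfl⟩ : ∃ c, a = c + 1 := ⟨a - 1, by omega⟩
  obtain ⟨d, rfl⟩ : ∃ d, b = d + 1 := ⟨b - 1, by omega⟩
  simp only [Nat.add_sub_cancel]
  have h : 2 ∣ c * d := by
    by_contra h
    have h1 : Odd (c * d) := by
      rcases Nat.even_or_odd (c * d) with h2 | h2
      · exact absurd h2.two_dvd h
      · exact h2
    rw [Nat.odd_mul] at h1
    have h3 : 2 ∣ Nat.gcd (c + 1) (d + 1) := by
      apply Nat.dvd_gcd
      · obtain ⟨k, hk⟩ := h1.1; omega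
      · obtain ⟨k, hk⟩ := h1.2; omega
    rw [hc] at h3
    omega
  have h2 : (c + 1) * (d + 1) = c * d + c + d + 1 := by ring
  omega

/-- coordinates -/
theorem coords {a b : ℕ} (ha : 1 ≤ a) (hb : 1 ≤ b) (hc : Nat.Coprime a b) (n : ℕ) :
    ∃ x < b, ∃ y < a, a * x + b * y ≡ n [MOD a * b] := by
  obtain ⟨x, hx, h1⟩ := Nat.exists_mul_mod_eq_of_coprime n hc (by omega : b ≠ 0)
  obtain ⟨y, hy, h2⟩ := Nat.exists_mul_mod_eq_of_coprime n hc.symm (by omega : a ≠ 0)
  refine ⟨x, hx, y, hy, ?_⟩
  rw [← Nat.modEq_and_modEq_iff_modEq_mul hc]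
  constructor
  · unfold Nat.ModEq; rw [Nat.mul_add_mod]; exact h2
  · unfold Nat.ModEq; rw [Nat.add_mul_mod_self_left]; exact h1

theorem gap_of_coords {a b n x y : ℕ} (hc : Nat.Coprime a b) (hx : x < b)
    (hy : y < a) (h : a * x + b * y = n + a * b) : Gap a b n := by
  rintro ⟨x', y', rfl⟩
  have h1 : a * x ≡ a * x' [MOD b] := by
    have : (a * x + b * y) % b = (a * x' + b * y' + a * b) % b := by rw [h]
    rw [Nat.add_mul_mod_self_left, Nat.add_mul_mod_self_right, Nat.add_mul_mod_self_left] at this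
    exact this
  have h2 : b * y ≡ b * y' [MOD a] := by
    have : (a * x + b * y) % a = (a * x' + b * y' + a * b) % a := by rw [h]
    rw [Nat.mul_add_mod, Nat.add_mul_mod_self_left, Nat.mul_add_mod] at this
    exact this
  have h3 : x ≡ x' [MOD b] := Nat.ModEq.cancel_left_of_coprime (by rw [Nat.gcd_comm]; exact hc) h1
  have h4 : y ≡ y' [MOD a] := Nat.ModEq.cancel_left_of_coprime hc h2
  have h5 : x ≤ x' := by
    have : x = x' % b := by rw [← Nat.mod_eq_of_lt hx]; exact h3
    rw [this]; exact Nat.mod_le _ _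
  have h6 : y ≤ y' := by
    have : y = y' % a := by rw [← Nat.mod_eq_of_lt hy]; exact h4
    rw [this]; exact Nat.mod_le _ _
  have h7 := Nat.mul_le_mul_left a h5
  have h8 := Nat.mul_le_mul_left b h6
  have h9 : 0 < a * b := Nat.mul_pos (by omega) (by omega)
  omega

theorem gap_iff {a b n x y : ℕ} (hc : Nat.Coprime a b) (hx : x < b) (hy : y < a)
    (hn : n < a * b) (h : a * x + b * y ≡ n [MOD a * b]) :
    (Gap a b n ∧ a * x + b * y = n + a * b) ∨ (¬ Gap a b n ∧ a * x + b * y = n) := by
  have hax : a * x + a ≤ a * b := by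
    have := Nat.mul_le_mul_left a (show x + 1 ≤ b from hx)
    rw [mul_add] at this; omega
  have hby : b * y + b ≤ a * b := by
    have := Nat.mul_le_mul_left b (show y + 1 ≤ a from hy)
    rw [mul_add, mul_comm b a] at this; omega
  unfold Nat.ModEq at h
  rw [Nat.mod_eq_of_lt hn] at h
  have h2 := Nat.div_add_mod (a * x + b * y) (a * b)
  rw [h] at h2
  have h3 : (a * x + b * y) / (a * b) < 2 := by
    rw [Nat.div_lt_iff_lt_mul (by omega)]; omega
  interval_cases h4 : (a * x + b * y) / (a * b)
  · right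
    refine ⟨?_, by omega⟩
    intro h5
    exact h5 ⟨x, y, by omega⟩
  · left
    have h5 : a * x + b * y = n + a * b := by omega
    exact ⟨gap_of_coords hc hx hy h5, h5⟩

theorem vTorus_step {a b : ℕ} (i : ℕ) (h : (a - 1) * (b - 1) / 2 + i < a * b) :
    (Gap a b ((a - 1) * (b - 1) / 2 + i) → vTorus a b i = vTorus a b (i + 1) + 1) ∧
    (¬ Gap a b ((a - 1) * (b - 1) / 2 + i) → vTorus a b i = vTorus a b (i + 1)) := by
  classical
  unfold vTorus
  set g := (a - 1) * (b - 1) / 2
  constructor
  · intro hg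
    have : (Finset.range (a * b)).filter (fun n => g + i ≤ n ∧ Gap a b n) =
        insert (g + i) ((Finset.range (a * b)).filter (fun n => g + (i + 1) ≤ n ∧ Gap a b n)) := by
      ext n
      simp only [Finset.mem_filter, Finset.mem_range, Finset.mem_insert]
      constructor
      · rintro ⟨h1, h2, h3⟩
        rcases Nat.eq_or_lt_of_le h2 with h4 | h4
        · left; exact h4.symm
        · right; exact ⟨h1, by omega, h3⟩
      · rintro (rfl | ⟨h1, h2, h3⟩)
        · exact ⟨h, le_refl _, hg⟩
        · exact ⟨h1, by omega, h3⟩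
    rw [this, Finset.card_insert_of_notMem]
    simp only [Finset.mem_filter, Finset.mem_range]
    omega
  · intro hg
    congr 1
    ext n
    simp only [Finset.mem_filter, Finset.mem_range]
    constructor
    · rintro ⟨h1, h2, h3⟩
      rcases Nat.eq_or_lt_of_le h2 with h4 | h4
      · rw [← h4] at h3; exact absurd h3 hg
      · exact ⟨h1, by omega, h3⟩
    · rintro ⟨h1, h2, h3⟩
      exact ⟨h1, by omega, h3⟩

theorem gap_lt {a b n : ℕ} (ha : 1 ≤ a) (hb : 1 ≤ b) (hc : Nat.Coprime a b) (hn : n < a * b)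
    (h : Gap a b n) : n + (a + b) ≤ a * b := by
  obtain ⟨x, hx, y, hy, h1⟩ := coords ha hb hc n
  have hax : a * x + a ≤ a * b := by
    have := Nat.mul_le_mul_left a (show x + 1 ≤ b from hx)
    rw [mul_add] at this; omega
  have hby : b * y + b ≤ a * b := by
    have := Nat.mul_le_mul_left b (show y + 1 ≤ a from hy)
    rw [mul_add, mul_comm b a] at this; omega
  rcases gap_iff hc hx hy hn h1 with h2 | h2
  · omega
  · exact absurd h h2.1

/-- the `V`-sequence of the torus knot vanishes from the genus on -/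
theorem vTorus_zero {a b i : ℕ} (ha : 1 ≤ a) (hb : 1 ≤ b) (hc : Nat.Coprime a b)
    (h : (a - 1) * (b - 1) / 2 ≤ i) : vTorus a b i = 0 := by
  classical
  unfold vTorus
  rw [Finset.card_eq_zero, Finset.filter_eq_empty_iff]
  intro n hn
  rw [Finset.mem_range] at hn
  rintro ⟨h1, h2⟩
  have h3 := gap_lt ha hb hc hn h2
  have h4 := genus_eq ha hb hc
  omega

theorem vTorus_isV {a b : ℕ} (ha : 1 ≤ a) (hb : 1 ≤ b) (hc : Nat.Coprime a b) :
    IsV (vTorus a b) := by
  intro i
  rcases Nat.lt_or_ge ((a - 1) * (b - 1) / 2 + i) (a * b) with h | h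
  · have h1 := vTorus_step (a := a) (b := b) i h
    by_cases h2 : Gap a b ((a - 1) * (b - 1) / 2 + i)
    · have := h1.1 h2; omega
    · have := h1.2 h2; omega
  · have h4 := genus_eq ha hb hc
    rw [vTorus_zero ha hb hc (by omega), vTorus_zero ha hb hc (by omega)]
    omega

/-- for the torus knot the corrected steps vanish -/
theorem kap_torus {a b : ℕ} (ha : 1 ≤ a) (hb : 1 ≤ b) (hc : Nat.Coprime a b)
    {x y : ℕ} (hx : x < b) (hy : y < a) :
    kap (vTorus a b) (a * b) ((a - 1) * (b - 1) / 2) (a * x + b * y) = 0 := by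
  have hg := genus_eq ha hb hc
  set g := (a - 1) * (b - 1) / 2 with hgdef
  have hax : ∀ x < b, a * x + a ≤ a * b := by
    intro x hx
    have := Nat.mul_le_mul_left a (show x + 1 ≤ b from hx)
    rw [mul_add] at this; omega
  have hby : ∀ y < a, b * y + b ≤ a * b := by
    intro y hy
    have := Nat.mul_le_mul_left b (show y + 1 ≤ a from hy)
    rw [mul_add, mul_comm b a] at this; omega
  -- low indices
  have key : ∀ x < b, ∀ y < a, 2 * idx (a * b) g (a * x + b * y) + 1 < a * b →
      kap (vTorus a b) (a * b) g (a * x + b * y) = 0 := by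
    intro x hx y hy hlow
    have h1 := hax x hx
    have h2 := hby y hy
    have h3 := idx_spec (r := a * b) (g := g) (n := a * x + b * y) (by omega) (by omega)
    have h4 := idx_mod (r := a * b) (g := g) (n := a * x + b * y) (c := a * b) (by omega) (by omega)
      (dvd_refl _)
    set i := idx (a * b) g (a * x + b * y) with hi
    have h5 : g + i < a * b := by omega
    have h6 := vTorus_step (a := a) (b := b) i h5
    have h7 : a * x + b * y ≡ g + i [MOD a * b] := by rw [add_comm g i]; exact h4.symm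
    have h8 := gap_iff hc hx hy h5 h7
    unfold kap
    rw [← hi, W_lo _ (by omega), W_lo _ (by omega)]
    rcases h8 with h8 | h8
    · have h9 := h6.1 h8.1
      rw [if_neg (by omega), if_pos (by omega)]
      omega
    · have h9 := h6.2 h8.1
      rw [if_neg (by omega), if_neg (by omega)]
      omega
  have h1 := hax x hx
  have h2 := hby y hy
  have h3 := idx_spec (r := a * b) (g := g) (n := a * x + b * y) (by omega) (by omega)
  rcases lt_trichotomy (2 * idx (a * b) g (a * x + b * y) + 1) (a * b) with h | h | h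
  · exact key x hx y hy h
  · have h4 := W_step_mid (vTorus a b) h
    unfold kap
    rw [if_neg (by omega), if_neg (by omega)]
    omega
  · have h4 : a * (b - 1 - x) + a * x + a = a * b := by
      rw [← mul_add, ← Nat.mul_succ]; congr 1; omega
    have h5 : b * (a - 1 - y) + b * y + b = a * b := by
      rw [← mul_add, ← Nat.mul_succ, mul_comm a b]; congr 1; omega
    have h6 := kap_anti (V := vTorus a b) (r := a * b) (g := g) (s := a + b)
      (n := a * x + b * y) (n' := a * (b - 1 - x) + b * (a - 1 - y)) hg (by omega) (by omega)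
    have h7 := key (b - 1 - x) (by omega) (a - 1 - y) (by omega) (by
      have h8 := idx_spec (r := a * b) (g := g) (n := a * (b - 1 - x) + b * (a - 1 - y))
        (by omega) (by omega)
      omega)
    omega

end Pool.Agent.CompSlopes
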