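import Pool.Agent.CompSlopes.Main

namespace Pool.Agent.CompSlopes

theorem sum_per (p : ℕ → ℚ) (b k m : ℕ) :
    ∑ t ∈ Finset.range (b * k + m), p (t % b) =
      k * (∑ t ∈ Finset.range b, p (t % b)) + ∑ t ∈ Finset.range m, p (t % b) := by
  induction k with
  | zero => simp
  | succ k ih =>
    rw [show b * (k + 1) + m = b + (b * k + m) by ring, Finset.sum_range_add]
    simp only [Nat.add_mod_left]
    rw [ih]
    push_cast
    ring

/-- a function on `Z/ab` splits as soon as its steps split -/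
theorem split_of_step {a b : ℕ} (ha : 1 ≤ a) (hb : 1 ≤ b) (D : ℕ → ℚ) (p q : ℕ → ℚ)
    (h0 : D (a * b) = D 0)
    (h : ∀ i < a * b, D i - D (i + 1) = p (i % a) + q (i % b)) :
    ∃ F G : ℕ → ℚ, ∀ i ≤ a * b, D i = F (i % a) + G (i % b) := by
  set sp := ∑ t ∈ Finset.range a, p (t % a) with hsp
  set sq := ∑ t ∈ Finset.range b, q (t % b) with hsq
  have hsum : ∀ i ≤ a * b, D 0 - D i =
      ∑ t ∈ Finset.range i, p (t % a) + ∑ t ∈ Finset.range i, q (t % b) := by
    intro i
    induction i with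
    | zero => intro _; simp
    | succ i ih =>
      intro hi
      rw [Finset.sum_range_succ, Finset.sum_range_succ]
      have h1 := ih (by omega)
      have h2 := h i (by omega)
      linarith
  have htot := hsum (a * b) (le_refl _)
  have e1 := sum_per p a b 0
  have e2 := sum_per q b a 0
  rw [Nat.add_zero, Finset.range_zero, Finset.sum_empty, add_zero, ← hsp] at e1
  rw [Nat.add_zero, Finset.range_zero, Finset.sum_empty, add_zero, ← hsq, mul_comm b a] at e2
  rw [h0, sub_self, e1, e2] at htot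
  have ha0 : (a : ℚ) ≠ 0 := by positivity
  have hb0 : (b : ℚ) ≠ 0 := by positivity
  refine ⟨fun t => D 0 - (∑ s ∈ Finset.range t, p (s % a) - t * (sp / a)),
    fun t => - (∑ s ∈ Finset.range t, q (s % b) - t * (sq / b)), ?_⟩
  intro i hi
  have h1 := hsum i hi
  have f1 := sum_per p a (i / a) (i % a)
  have f2 := sum_per q b (i / b) (i % b)
  rw [Nat.div_add_mod, ← hsp] at f1
  rw [Nat.div_add_mod, ← hsq] at f2
  rw [f1, f2] at h1
  have g1 : (i : ℚ) = a * ((i / a : ℕ) : ℚ) + ((i % a : ℕ) : ℚ) := by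
    exact_mod_cast (Nat.div_add_mod i a).symm
  have g2 : (i : ℚ) = b * ((i / b : ℕ) : ℚ) + ((i % b : ℕ) : ℚ) := by
    exact_mod_cast (Nat.div_add_mod i b).symm
  have g3 : ((i / a : ℕ) : ℚ) = (i - ((i % a : ℕ) : ℚ)) / a := by
    rw [eq_div_iff ha0]; linarith
  have g4 : ((i / b : ℕ) : ℚ) = (i - ((i % b : ℕ) : ℚ)) / b := by
    rw [eq_div_iff hb0]; linarith
  rw [g3, g4] at h1
  show D i = D 0 - (∑ s ∈ Finset.range (i % a), p (s % a) - ((i % a : ℕ) : ℚ) * (sp / a))
    + - (∑ s ∈ Finset.range (i % b), q (s % b) - ((i % b : ℕ) : ℚ) * (sq / b))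
  have h2 : (i : ℚ) * (sp / a) + i * (sq / b) = 0 := by
    have : sp / a + sq / b = 0 := by
      field_simp
      linarith
    rw [← mul_add, this, mul_zero]
  have h3 : (i - ((i % a : ℕ) : ℚ)) / a * sp = i * (sp / a) - ((i % a : ℕ) : ℚ) * (sp / a) := by
    ring
  have h4 : (i - ((i % b : ℕ) : ℚ)) / b * sq = i * (sq / b) - ((i % b : ℕ) : ℚ) * (sq / b) := by
    ring
  rw [h3, h4] at h1
  linarith

/-- the correction terms of the `ab`-surgery on the torus knot split -/
theorem torus_splits {a b : ℕ} (ha : 1 ≤ a) (hb : 1 ≤ b) (hc : Nat.Coprime a b) :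
    ∃ F G : ℕ → ℚ, ∀ i ≤ a * b, dSurg (vTorus a b) (a * b) i = F (i % a) + G (i % b) := by
  have hg := genus_eq ha hb hc
  set g := (a - 1) * (b - 1) / 2 with hgdef
  have hr : 0 < a * b := Nat.mul_pos (by omega) (by omega)
  have hX : ∀ t : ℕ, ∃ x < b, a * x % b = (t + g) % b := fun t =>
    Nat.exists_mul_mod_eq_of_coprime (t + g) hc (by omega)
  have hY : ∀ t : ℕ, ∃ y < a, b * y % a = (t + g) % a := fun t =>
    Nat.exists_mul_mod_eq_of_coprime (t + g) hc.symm (by omega)
  choose X hX1 hX2 using hX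
  choose Y hY1 hY2 using hY
  apply split_of_step ha hb _ (fun t => 1 - (1 + 2 * (Y t : ℚ)) / a)
    (fun t => 1 - (1 + 2 * (X t : ℚ)) / b) (dSurg_top _ _)
  intro i hi
  show _ = (1 - (1 + 2 * (Y (i % a) : ℚ)) / a) + (1 - (1 + 2 * (X (i % b) : ℚ)) / b)
  set x := X (i % b) with hx
  set y := Y (i % a) with hy
  have hxb : x < b := hX1 _
  have hya : y < a := hY1 _
  have hax : a * x + a ≤ a * b := by
    have := Nat.mul_le_mul_left a (show x + 1 ≤ b from hxb)
    rw [mul_add] at this; omega
  have hby : b * y + b ≤ a * b := by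
    have := Nat.mul_le_mul_left b (show y + 1 ≤ a from hya)
    rw [mul_add, mul_comm b a] at this; omega
  have h1 : a * x + b * y ≡ i + g [MOD a * b] := by
    rw [← Nat.modEq_and_modEq_iff_modEq_mul hc]
    constructor
    · unfold Nat.ModEq
      rw [Nat.mul_add_mod, hY2, Nat.add_mod, Nat.mod_mod, ← Nat.add_mod]
    · unfold Nat.ModEq
      rw [Nat.add_mul_mod_self_left, hX2, Nat.add_mod, Nat.mod_mod, ← Nat.add_mod]
  have h3 := idx_spec (r := a * b) (g := g) (n := a * x + b * y) (by omega) (by omega)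
  have h4 := idx_mod (r := a * b) (g := g) (n := a * x + b * y) (c := a * b) (by omega)
    (by omega) (dvd_refl _)
  have h5 : idx (a * b) g (a * x + b * y) = i := by
    have h7 := Nat.ModEq.add_right_cancel' g (h4.trans h1)
    unfold Nat.ModEq at h7
    rwa [Nat.mod_eq_of_lt h3.1, Nat.mod_eq_of_lt hi] at h7
  have h6 := kap_torus ha hb hc hxb hya
  rw [← hgdef] at h6
  unfold kap at h6
  rw [h5] at h6 h3
  rw [dSurg_step _ hr]
  have hg' : 2 * (g : ℚ) + (a + b) = a * b + 1 := by exact_mod_cast hg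
  have ha0 : (a : ℚ) ≠ 0 := by positivity
  have hb0 : (b : ℚ) ≠ 0 := by positivity
  rcases h3.2 with h | h | h
  · rw [if_pos h.2, if_neg (by omega)] at h6
    have h7 : W (vTorus a b) (a * b) i - W (vTorus a b) (a * b) (i + 1) = -1 := by omega
    have h8 : (i : ℚ) = a * x + b * y + a * b - g := by
      have : ((i + g : ℕ) : ℚ) = ((a * x + b * y + a * b : ℕ) : ℚ) := by rw [h.1]
      push_cast at this
      linarith
    rw [h7, h8]
    have h9 : (g : ℚ) = (a * b + 1 - (a + b)) / 2 := by linarith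
    rw [h9]
    push_cast
    field_simp
    ring
  · rw [if_neg (by omega), if_neg (by omega)] at h6
    have h7 : W (vTorus a b) (a * b) i - W (vTorus a b) (a * b) (i + 1) = 0 := by omega
    have h8 : (i : ℚ) = a * x + b * y - g := by
      have : ((i + g : ℕ) : ℚ) = ((a * x + b * y : ℕ) : ℚ) := by rw [h.1]
      push_cast at this
      linarith
    rw [h7, h8]
    have h9 : (g : ℚ) = (a * b + 1 - (a + b)) / 2 := by linarith
    rw [h9]
    push_cast
    field_simp
    ring
  · rw [if_neg (by omega), if_pos (by omega)] at h6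
    have h7 : W (vTorus a b) (a * b) i - W (vTorus a b) (a * b) (i + 1) = 1 := by omega
    have h8 : (i : ℚ) = a * x + b * y - g - a * b := by
      have : ((i + g + a * b : ℕ) : ℚ) = ((a * x + b * y : ℕ) : ℚ) := by rw [h.1]
      push_cast at this
      linarith
    rw [h7, h8]
    have h9 : (g : ℚ) = (a * b + 1 - (a + b)) / 2 := by linarith
    rw [h9]
    push_cast
    field_simp
    ring

/-- the converse: the `V`-sequences of cables split -/
theorem cable_splits {V V' : ℕ → ℕ} {a b : ℕ} (ha : 2 ≤ a) (hab : a < b) (hc : Nat.Coprime a b)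
    (h : ∀ i j : ℕ, 2 * i ≤ a * b → j < b → j + (a - 1) * (b - 1) / 2 ≡ i [MOD b] →
      V i = vTorus a b i + V' (min (j / a) ((a + b - 1 - j) / a))) :
    ∃ F G : ℕ → ℚ, ∀ i < a * b, dSurg V (a * b) i = F (i % a) + G (i % b) := by
  obtain ⟨F, G, hFG⟩ := torus_splits (by omega : 1 ≤ a) (by omega : 1 ≤ b) hc
  have hg := genus_eq (by omega : 1 ≤ a) (by omega : 1 ≤ b) hc
  set g := (a - 1) * (b - 1) / 2 with hgdef
  have hJ : ∀ t, ((t + (b - 1) * g) % b) + g ≡ t [MOD b] := by
    intro t
    have e : (t + (b - 1) * g) % b ≡ t + (b - 1) * g [MOD b] := Nat.mod_modEq _ _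
    have e2 := e.add_right g
    have e3 : t + (b - 1) * g + g = t + b * g := by
      obtain ⟨c, hcc⟩ : ∃ c, b = c + 1 := ⟨b - 1, by omega⟩
      rw [hcc]; simp only [Nat.add_sub_cancel]; ring
    rw [e3] at e2
    exact e2.trans (by unfold Nat.ModEq; rw [Nat.add_mul_mod_self_left])
  refine ⟨F, fun t => G t - 2 * (V' (min (((t + (b - 1) * g) % b) / a)
    ((a + b - 1 - (t + (b - 1) * g) % b) / a)) : ℚ), ?_⟩
  intro i hi
  show _ = F (i % a) + (G (i % b) - 2 * (V' (min (((i % b + (b - 1) * g) % b) / a)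
    ((a + b - 1 - (i % b + (b - 1) * g) % b) / a)) : ℚ))
  set j := (i % b + (b - 1) * g) % b with hj
  have hjb : j < b := Nat.mod_lt _ (by omega)
  have hji : j + g ≡ i [MOD b] := (hJ (i % b)).trans (Nat.mod_modEq _ _)
  have key : V (min i (a * b - i)) = vTorus a b (min i (a * b - i)) +
      V' (min (j / a) ((a + b - 1 - j) / a)) := by
    rcases Nat.lt_or_ge (a * b) (2 * i) with h1 | h1
    · rw [min_eq_right (by omega)]
      have h2 := h (a * b - i) (((a * b - i) + (b - 1) * g) % b) (by omega)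
        (Nat.mod_lt _ (by omega)) (hJ _)
      set j' := ((a * b - i) + (b - 1) * g) % b with hj'
      have hjb' : j' < b := Nat.mod_lt _ (by omega)
      have hji' : j' + g ≡ a * b - i [MOD b] := hJ _
      rw [h2]
      -- `j + j' ≡ a - 1`
      have e1 : (j + g) + (j' + g) ≡ i + (a * b - i) [MOD b] := hji.add hji'
      have e2 : (j + g) + (j' + g) + (a + b) ≡ i + (a * b - i) + (a + b) [MOD b] :=
        e1.add_right _
      have e3 : (j + g) + (j' + g) + (a + b) = j + j' + 1 + a * b := by omega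
      have e4 : i + (a * b - i) + (a + b) = a + b + a * b := by omega
      rw [e3, e4] at e2
      unfold Nat.ModEq at e2
      rw [Nat.add_mul_mod_self_right, Nat.add_mul_mod_self_right, Nat.add_mod_right] at e2
      rw [Nat.mod_eq_of_lt hab] at e2
      have e5 := Nat.div_add_mod (j + j' + 1) b
      rw [e2] at e5
      have e6 : (j + j' + 1) / b < 2 := by
        rw [Nat.div_lt_iff_lt_mul (by omega)]; omega
      have e7 : j + j' + 1 = a ∨ j + j' + 1 = a + b := by
        interval_cases (j + j' + 1) / b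
        · left; omega
        · right; omega
      congr 2
      rcases e7 with e7 | e7
      · rw [Nat.div_eq_of_lt (by omega : j < a), Nat.div_eq_of_lt (by omega : j' < a)]
        simp
      · rw [show a + b - 1 - j = j' by omega, show a + b - 1 - j' = j by omega, min_comm]
    · rw [min_eq_left (by omega)]
      exact h i j h1 hjb hji
  have h2 := hFG i hi.le
  unfold dSurg at h2 ⊢
  rw [key]
  push_cast at h2 ⊢
  linarith

/-- **Classification.** For coprime `2 ≤ a < b` and a `V`-sequence `V`, the correction terms of the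
`ab`-surgery are a sum of a function of `i mod a` and a function of `i mod b` if and only if `V` is,
on `[0, ab/2]`, the `V`-sequence of an `(a,b)`-cable. -/
theorem splits_iff {V : ℕ → ℕ} (hV : IsV V) {a b : ℕ} (ha : 2 ≤ a) (hab : a < b)
    (hc : Nat.Coprime a b) :
    (∃ F G : ℕ → ℚ, ∀ i < a * b, dSurg V (a * b) i = F (i % a) + G (i % b)) ↔
    ∃ V' : ℕ → ℕ, IsV V' ∧ ∀ i j : ℕ, 2 * i ≤ a * b → j < b →
      j + (a - 1) * (b - 1) / 2 ≡ i [MOD b] →
      V i = vTorus a b i + V' (min (j / a) ((a + b - 1 - j) / a)) := by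
  constructor
  · rintro ⟨F, G, hD⟩
    exact rigidity hV ha hab hc hD
  · rintro ⟨V', -, h⟩
    exact cable_splits ha hab hc h

end Pool.Agent.CompSlopes
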