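import Pool.Agent.CompSlopes.Cable

namespace Pool.Agent.CompSlopes

theorem IsV.anti {V : ℕ → ℕ} (hV : IsV V) {i j : ℕ} (h : i ≤ j) : V j ≤ V i := by
  induction j, h using Nat.le_induction with
  | base => exact le_refl _
  | succ n _ ih => exact (hV n).1.trans ih

/-- in the middle range the steps of a splitting `V` vanish away from the multiples of `a` -/
theorem mid_step {V : ℕ → ℕ} (hV : IsV V) {a b g : ℕ} {F G : ℕ → ℚ} (ha : 2 ≤ a) (hab : a < b)
    (hc : Nat.Coprime a b) (hg : 2 * g + (a + b) = a * b + 1)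
    (hD : ∀ i < a * b, dSurg V (a * b) i = F (i % a) + G (i % b)) {j : ℕ}
    (hj : 2 * (j + 1) ≤ a + b - 1) (hj2 : ¬ a ∣ j + 1) : V (g + j) = V (g + (j + 1)) := by
  obtain ⟨x, hx, y, hy, hxy⟩ := coords (by omega : 1 ≤ a) (by omega : 1 ≤ b) hc (2 * g + j)
  have hax : ∀ x < b, a * x + a ≤ a * b := by
    intro x hx
    have := Nat.mul_le_mul_left a (show x + 1 ≤ b from hx)
    rw [mul_add] at this; omega
  have hby : ∀ y < a, b * y + b ≤ a * b := by
    intro y hy
    have := Nat.mul_le_mul_left b (show y + 1 ≤ a from hy)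
    rw [mul_add, mul_comm b a] at this; omega
  have h1 := hax x hx
  have h2 := hby y hy
  have h3 := idx_spec (r := a * b) (g := g) (n := a * x + b * y) (by omega) (by omega)
  have h4 := idx_mod (r := a * b) (g := g) (n := a * x + b * y) (c := a * b) (by omega) (by omega)
    (dvd_refl _)
  have h5 : idx (a * b) g (a * x + b * y) = g + j := by
    have h6 : idx (a * b) g (a * x + b * y) + g ≡ g + j + g [MOD a * b] := by
      have : g + j + g = 2 * g + j := by ring
      rw [this]; exact h4.trans hxy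
    have h7 := Nat.ModEq.add_right_cancel' g h6
    unfold Nat.ModEq at h7
    rwa [Nat.mod_eq_of_lt h3.1, Nat.mod_eq_of_lt (by omega)] at h7
  have h6 := W_step_lo hV (r := a * b) (i := g + j) (by omega)
  rw [W_lo V (by omega), W_lo V (by omega)] at h6
  by_contra hne
  have h7 : kap V (a * b) g (a * x + b * y) = 1 := by
    unfold kap
    rw [h5, W_lo V (by omega), W_lo V (by omega), if_neg (by omega), if_neg (by omega)]
    have : V (g + j) ≠ V (g + j + 1) := hne
    omega
  rw [kap_const hV ha hab hc hg hD hx hy] at h7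
  have h8 := kap_const hV ha hab hc hg hD hx (show a - 1 < a by omega)
  rw [h7] at h8
  have h9 := hby (a - 1) (by omega)
  have h10 : b * (a - 1) + b = a * b := by
    rw [← Nat.mul_succ, mul_comm]; congr 1; omega
  have h11 : 2 * (a * x + b * (a - 1)) + (a + b) < 2 * (a * b) := by
    rcases lt_trichotomy (2 * (a * x + b * (a - 1)) + (a + b)) (2 * (a * b)) with h | h | h
    · exact h
    · have := kap_mid (V := V) hg (n := a * x + b * (a - 1)) h.symm
      omega
    · have := kap_neg hV hg (n := a * x + b * (a - 1)) (by omega) h (by omega)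
      omega
  -- `a x ≡ j + 1 - a` modulo `b`
  have h12 : a * x + a ≡ j + 1 [MOD b] := by
    have e1 : a * x + b * y ≡ 2 * g + j [MOD b] := Nat.ModEq.of_dvd (dvd_mul_left _ _) hxy
    have e2 : a * x ≡ 2 * g + j [MOD b] := by
      unfold Nat.ModEq at e1 ⊢
      rwa [Nat.add_mul_mod_self_left] at e1
    have e3 : a * x + (a + b) ≡ 2 * g + j + (a + b) [MOD b] := e2.add_right _
    have e4 : 2 * g + j + (a + b) = j + 1 + a * b := by omega
    rw [e4] at e3
    unfold Nat.ModEq at e3 ⊢
    rw [Nat.add_mul_mod_self_right, ← add_assoc, Nat.add_mod_right] at e3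
    exact e3
  have h13 : a * x + a = j + 1 := by
    unfold Nat.ModEq at h12
    rwa [Nat.mod_eq_of_lt (by omega), Nat.mod_eq_of_lt (by omega)] at h12
  apply hj2
  rw [← h13]
  exact ⟨x + 1, by ring⟩

/-- the first half of the middle range -/
theorem mid_floor {V : ℕ → ℕ} (hV : IsV V) {a b g : ℕ} {F G : ℕ → ℚ} (ha : 2 ≤ a) (hab : a < b)
    (hc : Nat.Coprime a b) (hg : 2 * g + (a + b) = a * b + 1)
    (hD : ∀ i < a * b, dSurg V (a * b) i = F (i % a) + G (i % b)) (j : ℕ)
    (hj : 2 * j ≤ a + b - 1) : V (g + j) = V (g + a * (j / a)) := by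
  induction j with
  | zero => simp
  | succ j ih =>
    by_cases h : a ∣ j + 1
    · rw [Nat.mul_div_cancel' h]
    · rw [← mid_step hV ha hab hc hg hD hj h, ih (by omega), Nat.succ_div_of_not_dvd h]

/-- the difference with the torus knot -/
noncomputable def uu (V : ℕ → ℕ) (a b i : ℕ) : ℤ := W V (a * b) i - W (vTorus a b) (a * b) i

theorem uu_top (V : ℕ → ℕ) (a b : ℕ) : uu V a b (a * b) = uu V a b 0 := by
  unfold uu
  rw [← W_sym V (Nat.zero_le (a * b)), ← W_sym (vTorus a b) (Nat.zero_le (a * b)), Nat.sub_zero]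

theorem uu_step {V : ℕ → ℕ} {a b x y : ℕ} (ha : 1 ≤ a) (hb : 1 ≤ b) (hc : Nat.Coprime a b)
    (hx : x < b) (hy : y < a) {i : ℕ}
    (hi : idx (a * b) ((a - 1) * (b - 1) / 2) (a * x + b * y) = i) :
    uu V a b i - uu V a b (i + 1) = kap V (a * b) ((a - 1) * (b - 1) / 2) (a * x + b * y) := by
  have h := kap_torus ha hb hc hx hy
  unfold uu
  unfold kap at h ⊢
  rw [hi] at h ⊢
  linarith

/-- the step of the difference depends only on the class modulo `b` -/
theorem uu_step_mod {V : ℕ → ℕ} (hV : IsV V) {a b : ℕ} {F G : ℕ → ℚ} (ha : 2 ≤ a) (hab : a < b)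
    (hc : Nat.Coprime a b)
    (hD : ∀ i < a * b, dSurg V (a * b) i = F (i % a) + G (i % b)) {i i' : ℕ} (hi : i < a * b)
    (hi' : i' < a * b) (h : i ≡ i' [MOD b]) :
    uu V a b i - uu V a b (i + 1) = uu V a b i' - uu V a b (i' + 1) := by
  have hg := genus_eq (by omega : 1 ≤ a) (by omega : 1 ≤ b) hc
  set g := (a - 1) * (b - 1) / 2 with hgdef
  have hax : ∀ x < b, a * x + a ≤ a * b := by
    intro x hx
    have := Nat.mul_le_mul_left a (show x + 1 ≤ b from hx)
    rw [mul_add] at this; omega
  have hby : ∀ y < a, b * y + b ≤ a * b := by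
    intro y hy
    have := Nat.mul_le_mul_left b (show y + 1 ≤ a from hy)
    rw [mul_add, mul_comm b a] at this; omega
  have key : ∀ i < a * b, ∃ x < b, ∃ y < a, idx (a * b) g (a * x + b * y) = i ∧
      a * x ≡ i + g [MOD b] := by
    intro i hi
    obtain ⟨x, hx, y, hy, hxy⟩ := coords (by omega : 1 ≤ a) (by omega : 1 ≤ b) hc (i + g)
    have h1 := hax x hx
    have h2 := hby y hy
    refine ⟨x, hx, y, hy, ?_, ?_⟩
    · have h3 := idx_spec (r := a * b) (g := g) (n := a * x + b * y) (by omega) (by omega)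
      have h4 := idx_mod (r := a * b) (g := g) (n := a * x + b * y) (c := a * b) (by omega)
        (by omega) (dvd_refl _)
      have h7 := Nat.ModEq.add_right_cancel' g (h4.trans hxy)
      unfold Nat.ModEq at h7
      rwa [Nat.mod_eq_of_lt h3.1, Nat.mod_eq_of_lt hi] at h7
    · have e1 : a * x + b * y ≡ i + g [MOD b] := Nat.ModEq.of_dvd (dvd_mul_left _ _) hxy
      unfold Nat.ModEq at e1 ⊢
      rwa [Nat.add_mul_mod_self_left] at e1
  obtain ⟨x, hx, y, hy, h1, h2⟩ := key i hi
  obtain ⟨x', hx', y', hy', h1', h2'⟩ := key i' hi'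
  have h3 : a * x ≡ a * x' [MOD b] := h2.trans ((h.add_right g).trans h2'.symm)
  have h4 : x ≡ x' [MOD b] := Nat.ModEq.cancel_left_of_coprime (by rw [Nat.gcd_comm]; exact hc) h3
  have h5 : x = x' := by
    unfold Nat.ModEq at h4
    rwa [Nat.mod_eq_of_lt hx, Nat.mod_eq_of_lt hx'] at h4
  subst h5
  rw [uu_step (by omega) (by omega) hc hx hy h1, uu_step (by omega) (by omega) hc hx hy' h1',
    ← hgdef, kap_const hV ha hab hc hg hD hx hy, kap_const hV ha hab hc hg hD hx hy']

theorem uu_per {V : ℕ → ℕ} (hV : IsV V) {a b : ℕ} {F G : ℕ → ℚ} (ha : 2 ≤ a) (hab : a < b)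
    (hc : Nat.Coprime a b)
    (hD : ∀ i < a * b, dSurg V (a * b) i = F (i % a) + G (i % b)) {i : ℕ} (hi : i + b ≤ a * b) :
    uu V a b (i + b) = uu V a b i := by
  have h1 : ∀ i, i + b ≤ a * b → uu V a b i - uu V a b (i + b) = uu V a b 0 - uu V a b b := by
    intro i
    induction i with
    | zero => intro _; rw [zero_add]
    | succ i ih =>
      intro hi
      have h2 := ih (by omega)
      have h3 := uu_step_mod hV ha hab hc hD (i := i) (i' := i + b) (by omega) (by omega)
        (by unfold Nat.ModEq; rw [Nat.add_mod_right])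
      rw [show i + 1 + b = i + b + 1 by omega]
      linarith
  have h2 : ∀ k, k ≤ a → uu V a b 0 - uu V a b (k * b) = k * (uu V a b 0 - uu V a b b) := by
    intro k
    induction k with
    | zero => intro _; simp
    | succ k ih =>
      intro hk
      have h3 := ih (by omega)
      have h4 : (k + 1) * b ≤ a * b := Nat.mul_le_mul_right b hk
      have h5 := h1 (k * b) (by rw [add_mul, one_mul] at h4; exact h4)
      rw [show (k + 1) * b = k * b + b by ring]
      push_cast
      linarith
  have h3 := h2 a (le_refl _)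
  rw [uu_top, sub_self] at h3
  have h4 : uu V a b 0 - uu V a b b = 0 := by
    rcases mul_eq_zero.mp h3.symm with h | h
    · exact absurd h (by omega)
    · exact h
  have h5 := h1 i hi
  linarith

theorem uu_mod {V : ℕ → ℕ} (hV : IsV V) {a b : ℕ} {F G : ℕ → ℚ} (ha : 2 ≤ a) (hab : a < b)
    (hc : Nat.Coprime a b)
    (hD : ∀ i < a * b, dSurg V (a * b) i = F (i % a) + G (i % b)) {i i' : ℕ} (hi : i ≤ a * b)
    (hi' : i' ≤ a * b) (h : i ≡ i' [MOD b]) : uu V a b i = uu V a b i' := by
  have key : ∀ k i, i + k * b ≤ a * b → uu V a b (i + k * b) = uu V a b i := by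
    intro k
    induction k with
    | zero => intro i _; simp
    | succ k ih =>
      intro i hk
      have e : i + (k + 1) * b = i + k * b + b := by ring
      rw [e, uu_per hV ha hab hc hD (by omega), ih i (by omega)]
  have key2 : ∀ i i', i ≤ i' → i' ≤ a * b → i ≡ i' [MOD b] → uu V a b i = uu V a b i' := by
    intro i i' h1 h2 h3
    obtain ⟨k, hk⟩ := (Nat.modEq_iff_dvd' h1).mp h3
    have h4 : i' = i + k * b := by rw [mul_comm k b, ← hk]; omega
    rw [h4] at h2 ⊢
    exact (key k i h2).symm
  rcases le_total i i' with h1 | h1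
  · exact key2 i i' h1 hi' h
  · exact (key2 i' i h1 hi h.symm).symm

/-- **Rigidity.** -/
theorem rigidity {V : ℕ → ℕ} (hV : IsV V) {a b : ℕ} {F G : ℕ → ℚ} (ha : 2 ≤ a) (hab : a < b)
    (hc : Nat.Coprime a b)
    (hD : ∀ i < a * b, dSurg V (a * b) i = F (i % a) + G (i % b)) :
    ∃ V' : ℕ → ℕ, IsV V' ∧ ∀ i j : ℕ, 2 * i ≤ a * b → j < b →
      j + (a - 1) * (b - 1) / 2 ≡ i [MOD b] →
      V i = vTorus a b i + V' (min (j / a) ((a + b - 1 - j) / a)) := by
  have hg := genus_eq (by omega : 1 ≤ a) (by omega : 1 ≤ b) hc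
  set g := (a - 1) * (b - 1) / 2 with hgdef
  set K := (a + b - 1) / (2 * a) with hK
  have haK : 2 * (a * K) ≤ a + b - 1 := by
    have := Nat.mul_div_le (a + b - 1) (2 * a)
    rw [← hK] at this
    rw [← mul_assoc]; exact this
  have hKc : ∀ k, 2 * (a * k) ≤ a + b - 1 → k ≤ K := by
    intro k hk
    rw [hK, Nat.le_div_iff_mul_le (by omega)]
    have : k * (2 * a) = 2 * (a * k) := by ring
    omega
  have hmid : ∀ j, 2 * j ≤ a + b - 1 → V (g + j) = V (g + a * min (j / a) K) := by
    intro j hj
    have h1 : a * (j / a) ≤ j := Nat.mul_div_le j a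
    have h2 : j / a ≤ K := hKc _ (by omega)
    rw [min_eq_left h2]
    exact mid_floor hV ha hab hc hg hD j hj
  refine ⟨fun k => V (g + a * min k K), ?_, ?_⟩
  · intro k
    show V (g + a * min (k + 1) K) ≤ V (g + a * min k K) ∧
      V (g + a * min k K) ≤ V (g + a * min (k + 1) K) + 1
    constructor
    · apply hV.anti
      have : min k K ≤ min (k + 1) K := min_le_min_right _ (Nat.le_succ k)
      have := Nat.mul_le_mul_left a this
      omega
    · rcases Nat.lt_or_ge k K with h | h
      · rw [min_eq_left (by omega : k ≤ K), min_eq_left (by omega : k + 1 ≤ K)]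
        have h1 : a * (k + 1) ≤ a * K := Nat.mul_le_mul_left a h
        have h2 : a * (k + 1) = a * k + a := by ring
        have h3 := mid_floor hV ha hab hc hg hD (a * k + a - 1) (by omega)
        have h4 : (a * k + a - 1) / a = k := by
          rw [Nat.div_eq_iff (by omega)]
          have hka := mul_comm k a
          constructor
          · omega
          · omega
        rw [h4] at h3
        have h5 := (hV (g + (a * k + a - 1))).2
        rw [h3, show g + (a * k + a - 1) + 1 = g + a * (k + 1) by omega] at h5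
        exact h5
      · rw [min_eq_right h, min_eq_right (by omega : K ≤ k + 1)]
        exact Nat.le_succ _
  · intro i j hi hj hij
    show V i = vTorus a b i + V (g + a * min (min (j / a) ((a + b - 1 - j) / a)) K)
    -- the value of `uu` at `g + j`
    have h1 : uu V a b (g + j) = V (g + a * min (min (j / a) ((a + b - 1 - j) / a)) K) := by
      have hzero : W (vTorus a b) (a * b) (g + j) = 0 := by
        unfold W
        rw [vTorus_zero (by omega) (by omega) hc]
        · rfl
        · rw [← hgdef]; omega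
      unfold uu
      rw [hzero, sub_zero]
      rcases Nat.lt_or_ge (a + b - 1) (2 * j) with h | h
      · -- second half
        have h2 : W V (a * b) (g + j) = V (g + (a + b - 1 - j)) := by
          unfold W
          rw [show min (g + j) (a * b - (g + j)) = g + (a + b - 1 - j) by omega]
        rw [h2, hmid _ (by omega)]
        congr 5
        rw [min_eq_right (Nat.div_le_div_right (by omega))]
      · have h2 : W V (a * b) (g + j) = V (g + j) := W_lo V (by omega)
        rw [h2, hmid _ h]
        congr 5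
        rw [min_eq_left (Nat.div_le_div_right (by omega))]
    have h2 : uu V a b i = uu V a b (g + j) := by
      apply uu_mod hV ha hab hc hD (by omega) (by omega)
      rw [add_comm g j]
      exact hij.symm
    rw [h1] at h2
    unfold uu at h2
    rw [W_lo V hi, W_lo (vTorus a b) hi] at h2
    omega

/-- **Torus knots are minimal.** -/
theorem torus_le {V : ℕ → ℕ} (hV : IsV V) {a b : ℕ} {F G : ℕ → ℚ} (ha : 2 ≤ a) (hab : a < b)
    (hc : Nat.Coprime a b)
    (hD : ∀ i < a * b, dSurg V (a * b) i = F (i % a) + G (i % b)) (i : ℕ) :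
    vTorus a b i ≤ V i := by
  obtain ⟨V', -, h⟩ := rigidity hV ha hab hc hD
  have hg := genus_eq (by omega : 1 ≤ a) (by omega : 1 ≤ b) hc
  rcases Nat.lt_or_ge (a * b) (2 * i) with h1 | h1
  · rw [vTorus_zero (by omega) (by omega) hc (by omega)]
    exact Nat.zero_le _
  · have h2 := h i ((i + (b - 1) * ((a - 1) * (b - 1) / 2)) % b) h1 (Nat.mod_lt _ (by omega)) (by
      have e : (i + (b - 1) * ((a - 1) * (b - 1) / 2)) % b ≡
          i + (b - 1) * ((a - 1) * (b - 1) / 2) [MOD b] := Nat.mod_modEq _ _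
      have e2 := e.add_right ((a - 1) * (b - 1) / 2)
      have e3 : i + (b - 1) * ((a - 1) * (b - 1) / 2) + (a - 1) * (b - 1) / 2 =
          i + b * ((a - 1) * (b - 1) / 2) := by
        obtain ⟨c, hcc⟩ : ∃ c, b = c + 1 := ⟨b - 1, by omega⟩
        rw [hcc]; simp only [Nat.add_sub_cancel]; ring
      rw [e3] at e2
      exact e2.trans (by unfold Nat.ModEq; rw [Nat.add_mul_mod_self_left]))
    omega

end Pool.Agent.CompSlopes
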