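import Pool.Agent.CompSlopes.Converse
import Pool.Agent.Helper23.FT.Theory

/-!
# Essential planar surfaces and the V-sequences of cables
-/

namespace Pool.Agent.CompSlopes

open Pool.Agent.Helper23.FT

theorem gap_iff_not_inSemi (a b n : ℕ) : Gap a b n ↔ ¬ InSemi a b (n : ℤ) := by
  unfold Gap InSemi
  constructor
  · rintro h ⟨x, y, hxy⟩
    exact h ⟨x, y, by exact_mod_cast hxy⟩
  · rintro h ⟨x, y, hxy⟩
    exact h ⟨x, y, by exact_mod_cast hxy⟩

theorem vTorus_eq (a b i : ℕ) : vTorus a b i = torusV a b i := by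
  classical
  unfold vTorus torusV
  congr 1
  ext n
  simp only [Finset.mem_filter, Finset.mem_range]
  rw [gap_iff_not_inSemi]
  constructor
  · rintro ⟨h1, h2, h3⟩
    exact ⟨h1, h3, h2⟩
  · rintro ⟨h1, h2, h3⟩
    exact ⟨h1, h3, h2⟩

/-- For `i ≤ a b / 2` the numbers `V i` are the invariants `V_i` of an `(a, b)`-cable of a knot whose
invariants are `V' i` (cabling formula of Wu 2016):
`V i = V_i(T(a, b)) + max (V' ⌊j / a⌋) (V' ⌊(a + b - 1 - j) / a⌋)`, where `0 ≤ j < b` and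
`j ≡ i - (a - 1) (b - 1) / 2` modulo `b`. -/
def IsCable (a b : ℕ) (V V' : ℕ → ℕ) : Prop :=
  ∀ i j : ℕ, 2 * i ≤ a * b → j < b → j + (a - 1) * (b - 1) / 2 ≡ i [MOD b] →
    V i = torusV a b i + max (V' (j / a)) (V' ((a + b - 1 - j) / a))

theorem max_eq_of_isV {V' : ℕ → ℕ} (h : IsV V') (m n : ℕ) :
    max (V' m) (V' n) = V' (min m n) := by
  rcases le_total m n with h1 | h1
  · rw [min_eq_left h1, max_eq_left (h.anti h1)]
  · rw [min_eq_right h1, max_eq_right (h.anti h1)]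

/-- **Classification** with the cabling formula. -/
theorem splits_iff_isCable {V : ℕ → ℕ} (hV : IsV V) {a b : ℕ} (ha : 2 ≤ a) (hab : a < b)
    (hc : Nat.Coprime a b) :
    (∃ F G : ℕ → ℚ, ∀ i < a * b, dSurg V (a * b) i = F (i % a) + G (i % b)) ↔
    ∃ V' : ℕ → ℕ, IsV V' ∧ IsCable a b V V' := by
  rw [splits_iff hV ha hab hc]
  constructor
  · rintro ⟨V', h1, h2⟩
    refine ⟨V', h1, fun i j hi hj hij => ?_⟩
    rw [max_eq_of_isV h1, ← vTorus_eq]
    exact h2 i j hi hj hij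
  · rintro ⟨V', h1, h2⟩
    refine ⟨V', h1, fun i j hi hj hij => ?_⟩
    rw [← max_eq_of_isV h1, vTorus_eq]
    exact h2 i j hi hj hij

theorem periodic_mod {p : ℤ → ℚ} {a : ℕ} (hp : ∀ i, p (i + a) = p i) (i : ℕ) :
    p (i : ℤ) = p ((i % a : ℕ) : ℤ) := by
  have h : ∀ (k m : ℕ), p ((m : ℤ) + k * a) = p m := by
    intro k m
    induction k with
    | zero => simp
    | succ k ih =>
      rw [← ih, ← hp ((m : ℤ) + k * a)]
      congr 1
      push_cast
      ring
  have h1 := h (i / a) (i % a)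
  rw [← h1]
  congr 1
  have h2 := Nat.mod_add_div i a
  have h3 : ((i % a + a * (i / a) : ℕ) : ℤ) = (i : ℤ) := by rw [h2]
  rw [← h3]
  push_cast
  ring

/-- a knot with a split surgery has the V-sequence of a cable -/
theorem cable_of_splits {D : FloerData} {a b : ℕ} (h : D.Splits a b) (hb : 2 ≤ b) :
    ∃ V' : ℕ → ℕ, IsV V' ∧ IsCable (min a b) (max a b) D.V V' := by
  obtain ⟨p, q, hp, hq, hv⟩ := h.exists_d
  have hV : IsV D.V := fun i => ⟨D.V_succ_le i, D.V_le_succ i⟩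
  have ha := h.two_le
  have hc := h.coprime
  have hD : ∀ i < a * b, dSurg D.V (a * b) i =
      (fun t : ℕ => p (t : ℤ)) (i % a) + (fun t : ℕ => q (t : ℤ)) (i % b) := by
    intro i hi
    show dSurg D.V (a * b) i = p ((i % a : ℕ) : ℤ) + q ((i % b : ℕ) : ℤ)
    rw [← periodic_mod hp, ← periodic_mod hq, hv i hi]
    unfold dSurg
    push_cast
    rfl
  rcases lt_trichotomy a b with hlt | hlt | hlt
  · rw [min_eq_left hlt.le, max_eq_right hlt.le]
    exact (splits_iff_isCable hV ha hlt hc).mp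
      ⟨fun t : ℕ => p (t : ℤ), fun t : ℕ => q (t : ℤ), hD⟩
  · exfalso
    subst hlt
    rw [Nat.coprime_self] at hc
    omega
  · rw [min_eq_right hlt.le, max_eq_left hlt.le]
    refine (splits_iff_isCable hV hb hlt hc.symm).mp
      ⟨fun t : ℕ => q (t : ℤ), fun t : ℕ => p (t : ℤ), fun i hi => ?_⟩
    rw [mul_comm b a] at hi ⊢
    rw [hD i hi, add_comm]

/-- the order of the homology of the second summand -/
theorem card_summand {T : FloerTheory} {K : T.Knot} {r : ℤ} {n b : ℕ} {L A : T.Man}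
    (hL : T.lens n L) (h : T.surg K r = T.sum L A) (hb : r.natAbs = n * b) :
    Nat.card (T.H A) = b := by
  obtain ⟨e1⟩ := T.homology_surg K r
  obtain ⟨e2⟩ := T.homology_sum L A
  obtain ⟨e3⟩ := T.homology_lens hL
  rw [h] at e1
  have hn := T.two_le_of_lens hL
  have h1 := Nat.card_congr (e1.symm.trans e2).toEquiv
  rw [Nat.card_zmod, Nat.card_prod, Nat.card_congr e3.toEquiv, Nat.card_zmod, hb] at h1
  exact (Nat.eq_of_mul_eq_mul_left (by omega) h1).symm

/-- **Essential planar surfaces and cables.** -/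
theorem planar {T : FloerTheory} {K : T.Knot} (P : T.Surface K) (hP : 2 ≤ T.comps P) :
    ∃ (r : ℤ) (a b : ℕ) (L A : T.Man), T.slope P = r ∧ T.surg K r = T.sum L A ∧ T.lens a L ∧
      Nat.card (T.H A) = b ∧ |r| = a * b ∧ 2 ≤ a ∧ 1 ≤ b ∧ a.Coprime b ∧
      (2 ≤ b → |r| ≤ 4 * T.g4 K + 2 ∧
        ∃ V' : ℕ → ℕ, IsV V' ∧ IsCable (min a b) (max a b) (T.data (T.side K r)).V V') := by
  have hg : T.genus K ≠ 0 := by
    intro h
    have := T.comps_of_trivial P h
    omega
  obtain ⟨r, hr⟩ := T.slope_integral P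
  obtain ⟨a, L, A, hL, hLA⟩ := T.lens_summand P hg
  rw [hr] at hLA
  have hr0 : r ≠ 0 := Pool.Agent.Helper87.SC.KnotTheory.ne_zero_of_summand hL hLA
  have hex : ∃ b : ℕ, r.natAbs = a * b ∧ (T.data (T.side K r)).Splits a b := by
    rcases lt_or_gt_of_ne hr0 with h | h
    · have h1 := T.surg_mirror K r
      rw [hLA, T.rev_sum] at h1
      have h2 : -r = ((r.natAbs : ℕ) : ℤ) := by omega
      rw [h2] at h1
      obtain ⟨b, hb, hs⟩ := FloerTheory.splits (by omega) (T.lens_rev hL) h1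
      refine ⟨b, hb, ?_⟩
      unfold FloerTheory.side
      rwa [if_neg h.not_gt]
    · have h2 : r = ((r.natAbs : ℕ) : ℤ) := by omega
      have h1 := hLA
      rw [h2] at h1
      obtain ⟨b, hb, hs⟩ := FloerTheory.splits (by omega) hL h1
      refine ⟨b, hb, ?_⟩
      unfold FloerTheory.side
      rwa [if_pos h]
  obtain ⟨b, hab, h⟩ := hex
  have hr' : |r| = a * b := by
    rw [← Int.natCast_natAbs, hab]
    push_cast
    rfl
  refine ⟨r, a, b, L, A, hr, hLA, hL, card_summand hL hLA hab, hr', h.two_le, h.pos,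
    h.coprime, fun hb => ⟨?_, cable_of_splits h hb⟩⟩
  have h1 := (h.le_of_two_le hb).1
  rw [FloerTheory.g4_side] at h1
  rw [hr']
  exact_mod_cast h1

end Pool.Agent.CompSlopes
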