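import Mathlib

namespace Pool.Agent.CompSlopes

/-- the combinatorial core: a function on `[0,b) × [0,a)` which is a sum of a function of `x` and a
function of `y`, takes its values in `{0,1}` below the middle line, in `{0,-1}` above it, and is
antisymmetric, does not depend on `y`. -/
theorem core {a b : ℕ} (ha : 2 ≤ a) (hab : a < b) (hc : Nat.Coprime a b) (κ : ℕ → ℕ → ℤ)
    (A B : ℕ → ℤ) (hs : ∀ x < b, ∀ y < a, κ x y = A x + B y)
    (hp : ∀ x < b, ∀ y < a, 2 * (a * x + b * y) + a + b < 2 * (a * b) →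
      0 ≤ κ x y ∧ κ x y ≤ 1)
    (hn : ∀ x < b, ∀ y < a, 2 * (a * b) < 2 * (a * x + b * y) + a + b →
      -1 ≤ κ x y ∧ κ x y ≤ 0)
    (hanti : ∀ x < b, ∀ y < a, κ (b - 1 - x) (a - 1 - y) = - κ x y) :
    ∀ x < b, ∀ y < a, κ x y = κ x 0 := by
  intro x hx y hy
  rw [hs x hx y hy, hs x hx 0 (by omega)]
  by_contra hne
  have hB : B y ≠ B 0 := fun h => hne (by rw [h])
  -- the positive side
  have hpos : ∀ y < a, 0 ≤ κ 0 y ∧ κ 0 y ≤ 1 := by
    intro y hy
    apply hp 0 (by omega) y hy
    have h1 : b * (y + 1) ≤ b * a := Nat.mul_le_mul_left _ hy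
    have h2 : a * b = b * a := Nat.mul_comm _ _
    rw [h2]
    have h3 : b * (y + 1) = b * y + b := by ring
    omega
  have hneg : ∀ y < a, -1 ≤ κ (b - 1) y ∧ κ (b - 1) y ≤ 0 := by
    intro y hy
    apply hn (b - 1) (by omega) y hy
    have h1 : a * (b - 1) + a = a * b := by
      obtain ⟨c, rfl⟩ : ∃ c, b = c + 1 := ⟨b - 1, by omega⟩
      simp only [Nat.add_sub_cancel]; ring
    have h2 : 0 ≤ b * y := Nat.zero_le _
    omega
  have h1 := hpos 0 (by omega)
  have h2 := hpos y hy
  have h3 := hneg 0 (by omega)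
  have h4 := hneg y hy
  rw [hs 0 (by omega) 0 (by omega)] at h1
  rw [hs 0 (by omega) y hy] at h2
  rw [hs (b - 1) (by omega) 0 (by omega)] at h3
  rw [hs (b - 1) (by omega) y hy] at h4
  have h5 := hanti 0 (by omega) 0 (by omega)
  rw [hs (b - 1 - 0) (by omega) (a - 1 - 0) (by omega), hs 0 (by omega) 0 (by omega)] at h5
  simp only [Nat.sub_zero] at h5
  rcases Nat.even_or_odd a with hae | hao
  · -- then `b` is odd
    have hbo : Odd b := by
      rcases Nat.even_or_odd b with hbe | hbo
      · exfalso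
        have h6 : 2 ∣ Nat.gcd a b := Nat.dvd_gcd hae.two_dvd hbe.two_dvd
        rw [hc] at h6
        omega
      · exact hbo
    obtain ⟨k, hk⟩ := hbo
    have h6 := hanti k (by omega) 0 (by omega)
    rw [show b - 1 - k = k by omega, hs k (by omega) (a - 1 - 0) (by omega),
      hs k (by omega) 0 (by omega)] at h6
    simp only [Nat.sub_zero] at h6
    omega
  · obtain ⟨k, hk⟩ := hao
    have h6 := hanti 0 (by omega) k (by omega)
    rw [show a - 1 - k = k by omega, hs (b - 1 - 0) (by omega) k (by omega),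
      hs 0 (by omega) k (by omega)] at h6
    simp only [Nat.sub_zero] at h6
    omega

/-- The residue `n - g` mod `r` for `n < 2 r`, with its representative in `[0, r)`. -/
def idx (r g n : ℕ) : ℕ := if n < g then n + r - g else if n < g + r then n - g else n - g - r

theorem idx_spec {r g n : ℕ} (hg : g ≤ r) (hn : n < g + 2 * r) :
    idx r g n < r ∧ (idx r g n + g = n + r ∧ n < g ∨ idx r g n + g = n ∧ g ≤ n ∧ n < g + r ∨
      idx r g n + g + r = n ∧ g + r ≤ n) := by
  unfold idx
  split_ifs <;> omega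

theorem idx_mod {r g n c : ℕ} (hg : g ≤ r) (hn : n < g + 2 * r) (hc : c ∣ r) :
    idx r g n + g ≡ n [MOD c] := by
  obtain ⟨d, rfl⟩ := hc
  rcases (idx_spec hg hn).2 with h | h | h
  · rw [h.1]; unfold Nat.ModEq; simp
  · rw [h.1]
  · have h2 : (idx (c * d) g n + g + c * d) % c = (idx (c * d) g n + g) % c :=
      Nat.add_mul_mod_self_left _ _ _
    rw [h.1] at h2
    exact h2.symm

/-- `W i = V (min i (r - i))`: the correction of Ni and Wu -/
def W (V : ℕ → ℕ) (r i : ℕ) : ℤ := (V (min i (r - i)) : ℤ)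

theorem W_sym (V : ℕ → ℕ) {r i : ℕ} (hi : i ≤ r) : W V r (r - i) = W V r i := by
  unfold W
  rw [show r - (r - i) = i by omega, min_comm]

theorem W_lo (V : ℕ → ℕ) {r i : ℕ} (hi : 2 * i ≤ r) : W V r i = V i := by
  unfold W
  rw [min_eq_left (by omega)]

/-- the V-sequences: steps `0` or `1` downwards -/
def IsV (V : ℕ → ℕ) : Prop := ∀ i, V (i + 1) ≤ V i ∧ V i ≤ V (i + 1) + 1

theorem W_step_lo {V : ℕ → ℕ} (hV : IsV V) {r i : ℕ} (hi : 2 * i + 1 < r) :
    0 ≤ W V r i - W V r (i + 1) ∧ W V r i - W V r (i + 1) ≤ 1 := by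
  rw [W_lo V (by omega), W_lo V (by omega)]
  have := hV i
  omega

theorem W_step_mid (V : ℕ → ℕ) {r i : ℕ} (hi : 2 * i + 1 = r) :
    W V r i - W V r (i + 1) = 0 := by
  rw [← W_sym V (show i + 1 ≤ r by omega), show r - (i + 1) = i by omega]
  ring

theorem W_step_anti (V : ℕ → ℕ) {r i : ℕ} (hi : i < r) :
    W V r (r - 1 - i) - W V r (r - 1 - i + 1) = - (W V r i - W V r (i + 1)) := by
  rw [← W_sym V (show i ≤ r by omega), ← W_sym V (show i + 1 ≤ r by omega),
    show r - 1 - i + 1 = r - i by omega, show r - 1 - i = r - (i + 1) by omega]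
  ring

theorem W_step_hi {V : ℕ → ℕ} (hV : IsV V) {r i : ℕ} (hi : i < r) (h2 : r < 2 * i + 1) :
    -1 ≤ W V r i - W V r (i + 1) ∧ W V r i - W V r (i + 1) ≤ 0 := by
  have h3 := W_step_anti V hi
  have h4 := W_step_lo hV (r := r) (i := r - 1 - i) (by omega)
  omega

/-- the step of `W` in the coordinate `n`, corrected by the step of the torus knot -/
def kap (V : ℕ → ℕ) (r g n : ℕ) : ℤ :=
  W V r (idx r g n) - W V r (idx r g n + 1) + (if n < g then 1 else 0)
    - (if g + r ≤ n then 1 else 0)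

theorem kap_pos {V : ℕ → ℕ} (hV : IsV V) {r g s n : ℕ} (hg : 2 * g + s = r + 1) (hs : 2 ≤ s)
    (hn : 2 * n + s < 2 * r) : 0 ≤ kap V r g n ∧ kap V r g n ≤ 1 := by
  have h1 := idx_spec (r := r) (g := g) (n := n) (by omega) (by omega)
  obtain ⟨h2, h3 | h3 | h3⟩ := h1
  · have h4 := W_step_hi hV h2 (by omega)
    unfold kap
    rw [if_pos h3.2, if_neg (by omega)]
    omega
  · have h4 := W_step_lo hV (r := r) (i := idx r g n) (by omega)
    unfold kap
    rw [if_neg (by omega), if_neg (by omega)]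
    omega
  · omega

theorem kap_neg {V : ℕ → ℕ} (hV : IsV V) {r g s n : ℕ} (hg : 2 * g + s = r + 1) (hs : 2 ≤ s)
    (hn : 2 * r < 2 * n + s) (hn2 : n + s ≤ 2 * r) : -1 ≤ kap V r g n ∧ kap V r g n ≤ 0 := by
  have h1 := idx_spec (r := r) (g := g) (n := n) (by omega) (by omega)
  obtain ⟨h2, h3 | h3 | h3⟩ := h1
  · omega
  · have h4 := W_step_hi hV h2 (by omega)
    unfold kap
    rw [if_neg (by omega), if_neg (by omega)]
    omega
  · have h4 := W_step_lo hV (r := r) (i := idx r g n) (by omega)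
    unfold kap
    rw [if_neg (by omega), if_pos (by omega)]
    omega

theorem kap_mid {V : ℕ → ℕ} {r g s n : ℕ} (hg : 2 * g + s = r + 1)
    (hn : 2 * r = 2 * n + s) : kap V r g n = 0 := by
  have h1 := idx_spec (r := r) (g := g) (n := n) (by omega) (by omega)
  obtain ⟨h2, h3 | h3 | h3⟩ := h1
  · omega
  · have h4 := W_step_mid V (r := r) (i := idx r g n) (by omega)
    unfold kap
    rw [if_neg (by omega), if_neg (by omega)]
    omega
  · omega

theorem kap_anti {V : ℕ → ℕ} {r g s n n' : ℕ} (hg : 2 * g + s = r + 1) (hs : 2 ≤ s)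
    (hn : n + n' + s = 2 * r) : kap V r g n' = - kap V r g n := by
  have h1 := idx_spec (r := r) (g := g) (n := n) (by omega) (by omega)
  have h1' := idx_spec (r := r) (g := g) (n := n') (by omega) (by omega)
  have h5 : idx r g n' = r - 1 - idx r g n := by omega
  have h6 := W_step_anti V h1.1
  unfold kap
  rw [h5, h6]
  split_ifs <;> omega

/-- The correction terms of the `r`-surgery on a knot with `V`-sequence `V` (Ni, Wu):
`d(i) = ((2 i - r) ^ 2 - r) / (4 r) - 2 V (min i (r - i))`. -/
def dSurg (V : ℕ → ℕ) (r i : ℕ) : ℚ :=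
  ((2 * (i : ℚ) - r) ^ 2 - r) / (4 * r) - 2 * (V (min i (r - i)) : ℚ)

theorem dSurg_top (V : ℕ → ℕ) (r : ℕ) : dSurg V r r = dSurg V r 0 := by
  unfold dSurg
  rw [Nat.sub_self, Nat.sub_zero, min_eq_right (Nat.zero_le _), min_eq_left (Nat.zero_le _)]
  push_cast
  ring

theorem dSurg_step (V : ℕ → ℕ) {r i : ℕ} (hr : 0 < r) :
    dSurg V r i - dSurg V r (i + 1) =
      1 - (2 * (i : ℚ) + 1) / r - 2 * ((W V r i - W V r (i + 1) : ℤ) : ℚ) := by
  unfold dSurg W
  have : (r : ℚ) ≠ 0 := by positivity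
  push_cast
  field_simp
  ring

theorem kap_formula {V : ℕ → ℕ} {r g n : ℕ} {F G : ℕ → ℚ} {a b : ℕ} (hr : 0 < r)
    (har : a ∣ r) (hbr : b ∣ r) (hg : g ≤ r) (hn : n < g + 2 * r)
    (hD : ∀ i < r, dSurg V r i = F (i % a) + G (i % b)) :
    (kap V r g n : ℚ) = 1 / 2 - ((n : ℚ) - g) / r - 1 / (2 * r)
      - ((F (idx r g n % a) - F ((idx r g n + 1) % a))
        + (G (idx r g n % b) - G ((idx r g n + 1) % b))) / 2 := by
  have hD2 : ∀ i ≤ r, dSurg V r i = F (i % a) + G (i % b) := by
    intro i hi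
    rcases Nat.lt_or_ge i r with h | h
    · exact hD i h
    · have : i = r := le_antisymm hi h
      subst this
      rw [dSurg_top, hD 0 hr, Nat.mod_eq_zero_of_dvd har, Nat.mod_eq_zero_of_dvd hbr,
        Nat.zero_mod, Nat.zero_mod]
  obtain ⟨h2, h3⟩ := idx_spec hg hn
  have h4 := dSurg_step V (i := idx r g n) hr
  rw [hD2 _ h2.le, hD2 _ h2] at h4
  have hr0 : (r : ℚ) ≠ 0 := by positivity
  have h5 : ((W V r (idx r g n) - W V r (idx r g n + 1) : ℤ) : ℚ) =
      1 / 2 - (2 * (idx r g n : ℚ) + 1) / r / 2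
      - ((F (idx r g n % a) - F ((idx r g n + 1) % a))
        + (G (idx r g n % b) - G ((idx r g n + 1) % b))) / 2 := by
    linarith
  unfold kap
  rw [Int.cast_sub, Int.cast_add, h5]
  rcases h3 with h3 | h3 | h3
  · rw [if_pos h3.2, if_neg (by omega)]
    have h6 : (idx r g n : ℚ) = n + r - g := by
      have : ((idx r g n + g : ℕ) : ℚ) = ((n + r : ℕ) : ℚ) := by rw [h3.1]
      push_cast at this
      linarith
    rw [h6]
    field_simp
    push_cast
    ring
  · rw [if_neg (by omega), if_neg (by omega)]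
    have h6 : (idx r g n : ℚ) = n - g := by
      have : ((idx r g n + g : ℕ) : ℚ) = ((n : ℕ) : ℚ) := by rw [h3.1]
      push_cast at this
      linarith
    rw [h6]
    field_simp
    push_cast
    ring
  · rw [if_neg (by omega), if_pos (by omega)]
    have h6 : (idx r g n : ℚ) = n - g - r := by
      have : ((idx r g n + g + r : ℕ) : ℚ) = ((n : ℕ) : ℚ) := by rw [h3.1]
      push_cast at this
      linarith
    rw [h6]
    field_simp
    push_cast
    ring

/-- the steps in the coordinates `(x, y)` split -/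
theorem kap_split {V : ℕ → ℕ} {a b g : ℕ} {F G : ℕ → ℚ} (ha : 2 ≤ a) (hb : 2 ≤ b)
    (hg : 2 * g + (a + b) = a * b + 1)
    (hD : ∀ i < a * b, dSurg V (a * b) i = F (i % a) + G (i % b)) {x y : ℕ} (hx : x < b)
    (hy : y < a) :
    kap V (a * b) g (a * x + b * y) + kap V (a * b) g 0 =
      kap V (a * b) g (a * x) + kap V (a * b) g (b * y) := by
  have hr : 0 < a * b := by positivity
  have hax : a * x + a ≤ a * b := by
    have := Nat.mul_le_mul_left a (show x + 1 ≤ b from hx)
    rw [mul_add] at this; omega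
  have hby : b * y + b ≤ a * b := by
    have := Nat.mul_le_mul_left b (show y + 1 ≤ a from hy)
    rw [mul_add, mul_comm b a] at this; omega
  have e1 := kap_formula (V := V) (r := a * b) (g := g) (n := a * x + b * y) (F := F) (G := G) (a := a)
    (b := b) hr (dvd_mul_right _ _) (dvd_mul_left _ _) (by omega) (by omega) hD
  have e2 := kap_formula (V := V) (r := a * b) (g := g) (n := 0) (F := F) (G := G) (a := a)
    (b := b) hr (dvd_mul_right _ _) (dvd_mul_left _ _) (by omega) (by omega) hD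
  have e3 := kap_formula (V := V) (r := a * b) (g := g) (n := a * x) (F := F) (G := G) (a := a)
    (b := b) hr (dvd_mul_right _ _) (dvd_mul_left _ _) (by omega) (by omega) hD
  have e4 := kap_formula (V := V) (r := a * b) (g := g) (n := b * y) (F := F) (G := G) (a := a)
    (b := b) hr (dvd_mul_right _ _) (dvd_mul_left _ _) (by omega) (by omega) hD
  have m : ∀ n n' c : ℕ, c ∣ a * b → n < g + 2 * (a * b) → n' < g + 2 * (a * b) →
      n ≡ n' [MOD c] → idx (a * b) g n % c = idx (a * b) g n' % c ∧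
        (idx (a * b) g n + 1) % c = (idx (a * b) g n' + 1) % c := by
    intro n n' c hc hn hn' h
    have h1 := idx_mod (g := g) (r := a * b) (n := n) (c := c) (by omega) hn hc
    have h2 := idx_mod (g := g) (r := a * b) (n := n') (c := c) (by omega) hn' hc
    have h3 : idx (a * b) g n ≡ idx (a * b) g n' [MOD c] :=
      Nat.ModEq.add_right_cancel' g ((h1.trans h).trans h2.symm)
    exact ⟨h3, h3.add_right 1⟩
  have m1 := m (a * x + b * y) (b * y) a (dvd_mul_right _ _) (by omega) (by omega)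
    (by unfold Nat.ModEq; rw [Nat.mul_add_mod])
  have m2 := m (a * x + b * y) (a * x) b (dvd_mul_left _ _) (by omega) (by omega)
    (by unfold Nat.ModEq; rw [Nat.add_mul_mod_self_left])
  have m3 := m (a * x) 0 a (dvd_mul_right _ _) (by omega) (by omega)
    (by unfold Nat.ModEq; rw [Nat.mul_mod_right, Nat.zero_mod])
  have m4 := m (b * y) 0 b (dvd_mul_left _ _) (by omega) (by omega)
    (by unfold Nat.ModEq; rw [Nat.mul_mod_right, Nat.zero_mod])
  rw [m1.1, m1.2, m2.1, m2.2] at e1
  rw [m3.1, m3.2] at e3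
  rw [m4.1, m4.2] at e4
  have e5 : (kap V (a * b) g (a * x + b * y) : ℚ) + kap V (a * b) g 0 =
      kap V (a * b) g (a * x) + kap V (a * b) g (b * y) := by
    rw [e1, e2, e3, e4]
    push_cast
    ring
  exact_mod_cast e5

/-- the steps in the coordinates `(x, y)` do not depend on `y` -/
theorem kap_const {V : ℕ → ℕ} (hV : IsV V) {a b g : ℕ} {F G : ℕ → ℚ} (ha : 2 ≤ a) (hab : a < b)
    (hc : Nat.Coprime a b) (hg : 2 * g + (a + b) = a * b + 1)
    (hD : ∀ i < a * b, dSurg V (a * b) i = F (i % a) + G (i % b)) {x y : ℕ} (hx : x < b)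
    (hy : y < a) :
    kap V (a * b) g (a * x + b * y) = kap V (a * b) g (a * x) := by
  have hax : ∀ x < b, a * x + a ≤ a * b := by
    intro x hx
    have := Nat.mul_le_mul_left a (show x + 1 ≤ b from hx)
    rw [mul_add] at this; omega
  have hby : ∀ y < a, b * y + b ≤ a * b := by
    intro y hy
    have := Nat.mul_le_mul_left b (show y + 1 ≤ a from hy)
    rw [mul_add, mul_comm b a] at this; omega
  have h := core ha hab hc (fun x y => kap V (a * b) g (a * x + b * y))
    (fun x => kap V (a * b) g (a * x)) (fun y => kap V (a * b) g (b * y) - kap V (a * b) g 0)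
    (by
      intro x hx y hy
      have := kap_split ha (by omega) hg hD hx hy
      show kap V (a * b) g (a * x + b * y) = _
      omega)
    (by
      intro x hx y hy h
      exact kap_pos hV hg (by omega) (by omega))
    (by
      intro x hx y hy h
      have h1 := hax x hx
      have h2 := hby y hy
      exact kap_neg hV hg (by omega) (by omega) (by omega))
    (by
      intro x hx y hy
      apply kap_anti hg (by omega)
      have h1 : a * (b - 1 - x) + a * x + a = a * b := by
        rw [← mul_add, ← Nat.mul_succ]; congr 1; omega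
      have h2 : b * (a - 1 - y) + b * y + b = a * b := by
        rw [← mul_add, ← Nat.mul_succ, mul_comm a b]; congr 1; omega
      omega)
    x hx y hy
  simpa using h

end Pool.Agent.CompSlopes
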